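import Mathlib

/-!
# MP_28ce77_lc: isomorphism testing for classes with few isomorphism types

`K` = pure finite sets, `J` = finite structures with one unary relation with at most one element.
Then `f_J ≤ 2 f_K`, a multitape Turing machine tests isomorphism in `K` in one step, and every
multitape Turing machine testing isomorphism in `J` needs more than `n` steps.
-/

open FirstOrder

namespace Pool.Agent.Results.MP_28ce77_lc.NegativeAnswer

/-- A finite relational signature: `r` relation symbols, the `i`-th one of arity `ar i`. -/
structure Sig where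
  /-- number of relation symbols -/
  r : ℕ
  /-- their arities -/
  ar : Fin r → ℕ

/-- The structures with universe `Fin n` (the universe `{1, …, n}`), given by the full tables of the
relation symbols. -/
abbrev Str (S : Sig) (n : ℕ) : Type := (i : Fin S.r) → (Fin (S.ar i) → Fin n) → Bool

/-- The first-order language with the relation symbols of `S`. -/
def Sig.lang (S : Sig) : FirstOrder.Language.{0, 0} := ⟨fun _ => Empty, fun k => {i : Fin S.r // S.ar i = k}⟩

/-- The first-order structure given by the tables. -/
@[reducible] def toStructure {S : Sig} {n : ℕ} (A : Str S n) : S.lang.Structure (Fin n) where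
  funMap := fun f _ => Empty.elim f
  RelMap := fun R v => A R.1 (fun j => v (Fin.cast R.2 j)) = true

/-- A first-order definable class of finite structures: a signature and a first-order sentence. -/
structure FOClass where
  /-- the signature -/
  S : Sig
  /-- the sentence -/
  φ : S.lang.Sentence

/-- `A` belongs to the class, i.e. is a model of the sentence. -/
def FOClass.Mem (L : FOClass) {n : ℕ} (A : Str L.S n) : Prop :=
  @FirstOrder.Language.Sentence.Realize L.S.lang (Fin n) (toStructure A) L.φ

/-- Isomorphism of structures with universe `Fin n`. -/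
def Iso {S : Sig} {n : ℕ} (A B : Str S n) : Prop :=
  ∃ e : Equiv.Perm (Fin n), ∀ i v, A i v = B i (fun j => e (v j))

/-- Isomorphism on the `n`-element members of the class. -/
def FOClass.isoSetoid (L : FOClass) (n : ℕ) : Setoid {A : Str L.S n // L.Mem A} where
  r A B := Iso A.1 B.1
  iseqv :=
    { refl := fun _ => ⟨1, fun _ _ => rfl⟩
      symm := by
        rintro A B ⟨e, he⟩
        refine ⟨e.symm, fun i v => ?_⟩
        rw [he]
        simp
      trans := by
        rintro A B C ⟨e, he⟩ ⟨f, hf⟩
        exact ⟨e.trans f, fun i v => by rw [he, hf]; rfl⟩ }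

/-- `f_L (n)`: the number of isomorphism types of `n`-element members of the class. -/
noncomputable def FOClass.types (L : FOClass) (n : ℕ) : ℕ := Nat.card (Quotient (L.isoSetoid n))

/-- The input alphabet: the bits and a separator `none`. -/
abbrev Letter : Type := Option Bool

/-- The word describing the tables of a structure: for every relation symbol the values on all
tuples (in the standard order), followed by a separator. -/
def table {S : Sig} {n : ℕ} (A : Str S n) : List Letter :=
  (List.finRange S.r).flatMap fun i =>
    (List.ofFn fun j : Fin (n ^ S.ar i) => some (A i (finFunctionFinEquiv.symm j))) ++ [none]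

/-- The input word for the pair `A, B`: the number `n` in binary, a separator, and the tables. -/
def input {S : Sig} {n : ℕ} (A B : Str S n) : List Letter :=
  (Nat.bits n).map some ++ none :: (table A ++ table B)

/-- A deterministic Turing machine with `k + 1` two-way infinite tapes. -/
structure Machine where
  /-- number of the work tapes -/
  k : ℕ
  /-- the states -/
  Q : Type
  finQ : Finite Q
  /-- the tape alphabet -/
  Γ : Type
  finΓ : Finite Γ
  /-- the tape symbols for the input letters; `sym none` is the blank symbol -/
  sym : Option Letter → Γ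
  sym_inj : Function.Injective sym
  /-- the initial state -/
  q₀ : Q
  /-- the transition function: depending on the state and the scanned symbols either the machine
  passes to a new state, writes a symbol on every tape and moves every head by `-1`, `0` or `1`, or
  it halts with a Boolean output -/
  δ : Q → (Fin (k + 1) → Γ) → (Q × (Fin (k + 1) → Γ) × (Fin (k + 1) → SignType)) ⊕ Bool

/-- Configurations: state, contents of the tapes, positions of the heads. -/
structure Config (M : Machine) where
  /-- the state -/
  q : M.Q
  /-- the contents of the tapes -/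
  tape : Fin (M.k + 1) → ℤ → M.Γ
  /-- the positions of the heads -/
  head : Fin (M.k + 1) → ℤ

/-- One step. -/
def Config.next {M : Machine} (c : Config M) : Config M ⊕ Bool :=
  match M.δ c.q (fun i => c.tape i (c.head i)) with
  | Sum.inr b => Sum.inr b
  | Sum.inl (q', w, m) =>
    Sum.inl ⟨q', fun i => Function.update (c.tape i) (c.head i) (w i),
      fun i => c.head i + ((m i : SignType) : ℤ)⟩

/-- The initial configuration with input `x` on the first tape. -/
def init (M : Machine) (x : List Letter) : Config M where
  q := M.q₀
  tape i z := if i = 0 then M.sym (if 0 ≤ z then x[z.toNat]? else none) else M.sym none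
  head _ := 0

/-- `Halts t c b`: started in the configuration `c`, the machine makes exactly `t` steps, the last
of which halts with output `b`. -/
def Halts {M : Machine} : ℕ → Config M → Bool → Prop
  | 0, _, _ => False
  | t + 1, c, b =>
    match c.next with
    | Sum.inr b' => t = 0 ∧ b' = b
    | Sum.inl c' => Halts t c' b

/-- `M` is an isomorphism testing algorithm for the class `L`. -/
def Tests (M : Machine) (L : FOClass) : Prop :=
  ∀ (n : ℕ) (A B : Str L.S n), L.Mem A → L.Mem B →
    ∃ t b, Halts t (init M (input A B)) b ∧ (b = true ↔ Iso A B)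

/-- `m_L (M, n)`: the largest number of steps of `M` on a pair of `n`-element members of `L`. -/
noncomputable def cost (M : Machine) (L : FOClass) (n : ℕ) : ℕ :=
  sSup {t | ∃ A B : Str L.S n, L.Mem A ∧ L.Mem B ∧ ∃ b, Halts t (init M (input A B)) b}

/-- The variant of `m_L (M, n)` in which a machine is charged at least the length of its input (as
if it had to read all of it). -/
noncomputable def chargedCost (M : Machine) (L : FOClass) (n : ℕ) : ℕ :=
  sSup {s | ∃ A B : Str L.S n, L.Mem A ∧ L.Mem B ∧
    ∃ t b, Halts t (init M (input A B)) b ∧ s = max t (input A B).length}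

/-! ### Facts on machines -/

theorem Halts.unique {M : Machine} {t t' : ℕ} {c : Config M} {b b' : Bool} (h : Halts t c b)
    (h' : Halts t' c b') : t = t' ∧ b = b' := by
  induction t generalizing t' c with
  | zero => exact absurd h id
  | succ t ih =>
    cases t' with
    | zero => exact absurd h' id
    | succ t' =>
      unfold Halts at h h'
      cases hc : c.next with
      | inr b'' =>
        rw [hc] at h h'
        exact ⟨by rw [h.1, h'.1], h.2.symm.trans h'.2⟩
      | inl c' =>
        rw [hc] at h h'
        obtain ⟨h1, h2⟩ := ih h h'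
        exact ⟨by rw [h1], h2⟩

/-- Two configurations which cannot be distinguished in the next `m - s` steps. -/
structure Agree {M : Machine} (m s : ℤ) (c c' : Config M) : Prop where
  q : c.q = c'.q
  head : c.head = c'.head
  le : ∀ i, c.head i ≤ s
  tape : ∀ i z, z < m → c.tape i z = c'.tape i z

theorem Halts.of_agree {M : Machine} {t : ℕ} {m s : ℤ} {c c' : Config M} {b : Bool}
    (h : Halts t c b) (ha : Agree m s c c') (hm : s + t ≤ m) : Halts t c' b := by
  induction t generalizing s c c' with
  | zero => exact absurd h id
  | succ t ih =>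
    have hs : s < m := by push_cast at hm; omega
    have hsc : (fun i => c'.tape i (c'.head i)) = fun i => c.tape i (c.head i) := by
      funext i
      rw [← ha.head, ha.tape i _ ((ha.le i).trans_lt hs)]
    unfold Halts at h ⊢
    have hn' : c'.next = match M.δ c.q (fun i => c.tape i (c.head i)) with
      | Sum.inr b => Sum.inr b
      | Sum.inl (q', w, m) =>
        Sum.inl ⟨q', fun i => Function.update (c'.tape i) (c.head i) (w i),
          fun i => c.head i + ((m i : SignType) : ℤ)⟩ := by
      unfold Config.next
      rw [hsc, ← ha.q, ← ha.head]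
    have hn : c.next = match M.δ c.q (fun i => c.tape i (c.head i)) with
      | Sum.inr b => Sum.inr b
      | Sum.inl (q', w, m) =>
        Sum.inl ⟨q', fun i => Function.update (c.tape i) (c.head i) (w i),
          fun i => c.head i + ((m i : SignType) : ℤ)⟩ := rfl
    rcases hδ : M.δ c.q (fun i => c.tape i (c.head i)) with ⟨q', w, mv⟩ | b'
    · rw [hδ] at hn hn'
      rw [hn] at h
      rw [hn']
      refine ih (s := s + 1) h ⟨rfl, rfl, fun i => ?_, fun i z hz => ?_⟩ (by push_cast at hm ⊢; omega)
      · have h1 := ha.le i
        have h2 : ((mv i : SignType) : ℤ) ≤ 1 := by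
          rcases mv i with _ | _ | _ <;> decide
        show c.head i + _ ≤ _
        omega
      · show Function.update (c.tape i) (c.head i) (w i) z =
          Function.update (c'.tape i) (c.head i) (w i) z
        rcases eq_or_ne z (c.head i) with rfl | hne
        · rw [Function.update_self, Function.update_self]
        · rw [Function.update_of_ne hne, Function.update_of_ne hne]
          exact ha.tape i z hz
    · rw [hδ] at hn hn'
      rw [hn] at h
      rw [hn']
      exact h

/-- A machine which halts within `m` steps sees at most the first `m` letters of its input. -/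
theorem halts_of_prefix {M : Machine} {p x y : List Letter} {t : ℕ} {b : Bool}
    (ht : t ≤ p.length) (h : Halts t (init M (p ++ x)) b) : Halts t (init M (p ++ y)) b := by
  refine h.of_agree (m := p.length) (s := 0) ⟨rfl, rfl, fun i => le_rfl, fun i z hz => ?_⟩
    (by simpa using ht)
  show (if i = 0 then _ else _) = if i = 0 then _ else _
  rcases lt_or_ge z 0 with h0 | h0
  · rw [if_neg (not_le.2 h0), if_neg (not_le.2 h0)]
  · rw [if_pos h0, if_pos h0]
    have h1 : z.toNat < p.length := by omega
    rw [List.getElem?_append_left h1, List.getElem?_append_left h1]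

theorem le_cost {M : Machine} {L : FOClass} {n : ℕ} {A B : Str L.S n}
    (hA : L.Mem A) (hB : L.Mem B) {t : ℕ} {b : Bool} (h : Halts t (init M (input A B)) b) :
    t ≤ cost M L n := by
  classical
  refine le_csSup ?_ (show t ∈ {t | ∃ A B : Str L.S n, L.Mem A ∧ L.Mem B ∧
    ∃ b, Halts t (init M (input A B)) b} from ⟨A, B, hA, hB, b, h⟩)
  have hfin : {t | ∃ A B : Str L.S n, L.Mem A ∧ L.Mem B ∧
      ∃ b, Halts t (init M (input A B)) b}.Finite := by
    have h1 : {t | ∃ A B : Str L.S n, L.Mem A ∧ L.Mem B ∧
        ∃ b, Halts t (init M (input A B)) b} ⊆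
        Set.range (fun P : Str L.S n × Str L.S n =>
          if hP : ∃ t b, Halts t (init M (input P.1 P.2)) b then Classical.choose hP else 0) := by
      rintro t ⟨A, B, -, -, b, hb⟩
      refine ⟨(A, B), ?_⟩
      have hP : ∃ t b, Halts t (init M (input A B)) b := ⟨t, b, hb⟩
      show (if hP : ∃ t b, Halts t (init M (input A B)) b then Classical.choose hP else 0) = t
      rw [dif_pos hP]
      obtain ⟨b', hb'⟩ := Classical.choose_spec hP
      exact (hb'.unique hb).1
    exact (Set.finite_range _).subset h1
  exact hfin.bddAbove

/-! ### The class of pure sets -/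

/-- The class of all finite sets (empty signature). -/
def setsK : FOClass := ⟨⟨0, Fin.elim0⟩, ⊤⟩

theorem setsK_mem {n : ℕ} (A : Str setsK.S n) : setsK.Mem A := by
  show @FirstOrder.Language.Sentence.Realize setsK.S.lang (Fin n) (toStructure A) ⊤
  simp [FirstOrder.Language.Sentence.Realize, FirstOrder.Language.Formula.Realize]

theorem setsK_iso {n : ℕ} (A B : Str setsK.S n) : Iso A B := ⟨1, fun i => i.elim0⟩

/-- The machine which halts in its first step with output `true`. -/
def trivialMachine : Machine where
  k := 0
  Q := Unit
  finQ := inferInstance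
  Γ := Option Letter
  finΓ := inferInstance
  sym := id
  sym_inj := Function.injective_id
  q₀ := ()
  δ _ _ := Sum.inr true

theorem trivial_halts (x : List Letter) : Halts 1 (init trivialMachine x) true := by
  show (0 = 0 ∧ true = true)
  exact ⟨rfl, rfl⟩

theorem trivial_tests : Tests trivialMachine setsK :=
  fun _ A B _ _ => ⟨1, true, trivial_halts _, by simpa using setsK_iso A B⟩

theorem trivial_cost (n : ℕ) : cost trivialMachine setsK n = 1 := by
  have h : {t | ∃ A B : Str setsK.S n, setsK.Mem A ∧ setsK.Mem B ∧
      ∃ b, Halts t (init trivialMachine (input A B)) b} = {1} := by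
    ext t
    constructor
    · rintro ⟨A, B, _, _, b, hb⟩
      exact (hb.unique (trivial_halts _)).1
    · rintro rfl
      exact ⟨fun i => i.elim0, fun i => i.elim0, setsK_mem _, setsK_mem _, true, trivial_halts _⟩
  unfold cost
  rw [h]
  exact csSup_singleton 1

/-! ### One unary relation with at most one element -/

/-- The signature with one unary relation symbol. -/
def sigJ : Sig := ⟨1, fun _ => 1⟩

/-- The unary relation symbol. -/
def symP : sigJ.lang.Relations 1 := ⟨(⟨0, Nat.one_pos⟩ : Fin 1), rfl⟩

/-- The class of the finite structures with one unary relation which has at most one element. -/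
def setsJ : FOClass :=
  ⟨sigJ, ∀' ∀' ((symP.boundedFormula₁ (&0) ⊓ symP.boundedFormula₁ (&1)) ⟹ ((&0) =' (&1)))⟩

/-- The unary relation of a structure. -/
def val {n : ℕ} (A : Str setsJ.S n) (a : Fin n) : Bool := A (⟨0, Nat.one_pos⟩ : Fin 1) (fun _ => a)

theorem val_eq {n : ℕ} (A : Str setsJ.S n) (i : Fin setsJ.S.r) (v : Fin (setsJ.S.ar i) → Fin n) :
    A i v = val A (v (⟨0, Nat.one_pos⟩ : Fin 1)) := by
  have hi : i = (⟨0, Nat.one_pos⟩ : Fin 1) := Subsingleton.elim (α := Fin 1) _ _
  subst hi
  unfold val
  congr 1
  funext j
  exact congrArg v (Subsingleton.elim (α := Fin 1) _ _)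

theorem setsJ_mem_iff {n : ℕ} (A : Str setsJ.S n) :
    setsJ.Mem A ↔ ∀ a b : Fin n, val A a = true → val A b = true → a = b := by
  let _ : sigJ.lang.Structure (Fin n) := toStructure (S := sigJ) A
  have hrel : ∀ a : Fin n, FirstOrder.Language.Structure.RelMap symP ![a] ↔ val A a = true := by
    intro a
    exact iff_of_eq (congrArg (· = true)
      (val_eq A (⟨0, Nat.one_pos⟩ : Fin 1) (fun j => ![a] (Fin.cast rfl j))))
  show @FirstOrder.Language.Sentence.Realize sigJ.lang (Fin n) (toStructure A)
    (∀' ∀' ((symP.boundedFormula₁ (&0) ⊓ symP.boundedFormula₁ (&1)) ⟹ ((&0) =' (&1)))) ↔ _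
  simp only [FirstOrder.Language.Sentence.Realize, FirstOrder.Language.Formula.Realize,
    FirstOrder.Language.BoundedFormula.realize_all, FirstOrder.Language.BoundedFormula.realize_imp,
    FirstOrder.Language.BoundedFormula.realize_inf, FirstOrder.Language.BoundedFormula.realize_rel₁,
    FirstOrder.Language.BoundedFormula.realize_bdEqual]
  constructor
  · intro h a b ha hb
    exact h a b ⟨(hrel a).2 ha, (hrel b).2 hb⟩
  · rintro h a b ⟨ha, hb⟩
    exact h a b ((hrel a).1 ha) ((hrel b).1 hb)

/-- The structure with relation `{a | f a = true}`. -/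
def ofVal {n : ℕ} (f : Fin n → Bool) : Str setsJ.S n :=
  fun _ v => f (v (⟨0, Nat.one_pos⟩ : Fin 1))

theorem val_ofVal {n : ℕ} (f : Fin n → Bool) (a : Fin n) : val (ofVal f) a = f a := rfl

theorem iso_iff {n : ℕ} (A B : Str setsJ.S n) :
    Iso A B ↔ ∃ e : Equiv.Perm (Fin n), ∀ a, val A a = val B (e a) := by
  constructor
  · rintro ⟨e, he⟩
    exact ⟨e, fun a => he _ _⟩
  · rintro ⟨e, he⟩
    refine ⟨e, fun i v => ?_⟩
    rw [val_eq A i v, val_eq B i]
    exact he _

theorem types_setsJ (n : ℕ) : setsJ.types n ≤ 2 := by
  classical
  have hlift : ∀ A B : {A : Str setsJ.S n // setsJ.Mem A}, (setsJ.isoSetoid n).r A B →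
      decide (∃ a, val A.1 a = true) = decide (∃ a, val B.1 a = true) := by
    rintro A B h
    obtain ⟨e, he⟩ := (iso_iff A.1 B.1).1 h
    rw [decide_eq_decide]
    constructor
    · rintro ⟨a, ha⟩
      exact ⟨e a, by rw [← he]; exact ha⟩
    · rintro ⟨a, ha⟩
      exact ⟨e.symm a, by rw [he]; simpa using ha⟩
  have hinj : Function.Injective (Quotient.lift (s := setsJ.isoSetoid n)
      (fun A : {A : Str setsJ.S n // setsJ.Mem A} => decide (∃ a, val A.1 a = true)) hlift) := by
    intro x y
    induction x using Quotient.inductionOn with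
    | _ A =>
    induction y using Quotient.inductionOn with
    | _ B =>
    intro h
    have h' : (∃ a, val A.1 a = true) ↔ ∃ a, val B.1 a = true := by
      have h2 : decide (∃ a, val A.1 a = true) = decide (∃ a, val B.1 a = true) := h
      simpa using h2
    apply Quotient.sound
    show Iso A.1 B.1
    rw [iso_iff]
    by_cases hA : ∃ a, val A.1 a = true
    · obtain ⟨a, ha⟩ := hA
      obtain ⟨b, hb⟩ := h'.1 ⟨a, ha⟩
      have hA' := (setsJ_mem_iff A.1).1 A.2
      have hB' := (setsJ_mem_iff B.1).1 B.2
      refine ⟨Equiv.swap a b, fun c => ?_⟩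
      rw [Bool.eq_iff_iff]
      constructor
      · intro hc
        rw [hA' c a hc ha, Equiv.swap_apply_left]
        exact hb
      · intro hc
        have h3 := hB' _ _ hc hb
        have h4 : c = a := (Equiv.swap a b).injective (h3.trans (Equiv.swap_apply_left a b).symm)
        rw [h4]
        exact ha
    · have hB : ¬ ∃ b, val B.1 b = true := fun hb => hA (h'.2 hb)
      push Not at hA hB
      refine ⟨1, fun c => ?_⟩
      have h5 : val A.1 c = false := by simpa using hA c
      have h6 : val B.1 c = false := by simpa using hB c
      rw [h5]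
      exact h6.symm
  have h7 := Nat.card_le_card_of_injective _ hinj
  simpa [FOClass.types] using h7

theorem one_le_types_setsK (n : ℕ) : 1 ≤ setsK.types n := by
  unfold FOClass.types
  have : Nonempty (Quotient (setsK.isoSetoid n)) :=
    ⟨Quotient.mk _ ⟨fun i => i.elim0, setsK_mem _⟩⟩
  exact Nat.card_pos

/-- Every machine testing isomorphism in `J` needs more than `n` steps. -/
theorem lt_cost {M : Machine} (hM : Tests M setsJ) {n : ℕ} (hn : 1 ≤ n) :
    n < cost M setsJ n := by
  set E : Str setsJ.S n := ofVal fun _ => false with hE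
  set F : Str setsJ.S n := ofVal fun a => decide (a = (⟨0, hn⟩ : Fin n)) with hF
  have hEm : setsJ.Mem E := by
    rw [setsJ_mem_iff]
    intro a b ha
    rw [hE, val_ofVal] at ha
    exact absurd ha (by decide)
  have hFm : setsJ.Mem F := by
    rw [setsJ_mem_iff]
    intro a b ha hb
    rw [hF, val_ofVal, decide_eq_true_eq] at ha hb
    rw [ha, hb]
  have hEF : ¬ Iso E F := by
    rw [iso_iff]
    rintro ⟨e, he⟩
    have h := he (e.symm ⟨0, hn⟩)
    rw [hE, hF, val_ofVal, val_ofVal, Equiv.apply_symm_apply] at h
    simp at h
  have hEE : Iso E E := ⟨1, fun _ _ => rfl⟩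
  obtain ⟨t, b, h1, h2⟩ := hM n E E hEm hEm
  obtain ⟨t', b', h3, h4⟩ := hM n E F hEm hFm
  refine lt_of_lt_of_le ?_ (le_cost hEm hEm h1)
  by_contra hlt
  push Not at hlt
  have hsplit : ∀ B : Str setsJ.S n, input E B =
      ((Nat.bits n).map some ++ none :: table E) ++ table B := by
    intro B
    simp [input]
  have hlen : n ≤ ((Nat.bits n).map some ++ none :: table E).length := by
    have h8 : table E = ((List.ofFn fun j : Fin (n ^ 1) =>
        some (E (⟨0, Nat.one_pos⟩ : Fin 1) (finFunctionFinEquiv.symm j))) ++ [none]) ++ [] := rfl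
    have h5 : n ≤ (table E).length := by
      rw [h8, List.append_nil, List.length_append, List.length_ofFn, pow_one]
      exact Nat.le_add_right _ _
    rw [List.length_append, List.length_cons]
    omega
  rw [hsplit] at h1 h3
  obtain ⟨-, h6⟩ := h3.unique (halts_of_prefix (hlt.trans hlen) h1)
  exact hEF (h4.1 (h6.trans (h2.2 hEE)))

/-! ### The variant in which the whole input is charged -/

theorem length_setsK {n : ℕ} (A B : Str setsK.S n) : (input A B).length = Nat.size n + 1 := by
  have hA : table A = [] := rfl
  have hB : table B = [] := rfl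
  rw [input, hA, hB, List.append_nil, List.length_append, List.length_map, Nat.size_eq_bits_len]
  rfl

theorem trivial_chargedCost (n : ℕ) : chargedCost trivialMachine setsK n = Nat.size n + 1 := by
  have h : {s | ∃ A B : Str setsK.S n, setsK.Mem A ∧ setsK.Mem B ∧
      ∃ t b, Halts t (init trivialMachine (input A B)) b ∧ s = max t (input A B).length} =
      {Nat.size n + 1} := by
    ext s
    constructor
    · rintro ⟨A, B, _, _, t, b, hb, rfl⟩
      rw [(hb.unique (trivial_halts _)).1, length_setsK]
      exact max_eq_right (Nat.le_add_left _ _)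
    · rintro rfl
      refine ⟨fun i => i.elim0, fun i => i.elim0, setsK_mem _, setsK_mem _, 1, true,
        trivial_halts _, ?_⟩
      rw [length_setsK]
      exact (max_eq_right (Nat.le_add_left _ _)).symm
  unfold chargedCost
  rw [h]
  exact csSup_singleton _

theorem monomial_small (d a : ℕ) : ∀ᶠ k : ℕ in Filter.atTop, a * (k + 2) ^ d ≤ 2 ^ k := by
  have h1 := (tendsto_pow_const_div_const_pow_of_one_lt d (one_lt_two (α := ℝ))).comp
    (Filter.tendsto_add_atTop_nat 2)
  have hpos : (0 : ℝ) < 1 / (4 * (a + 1)) := by positivity
  filter_upwards [h1.eventually_lt_const hpos] with k hk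
  simp only [Function.comp_apply] at hk
  have h2 : (0 : ℝ) < 2 ^ (k + 2) := by positivity
  rw [div_lt_div_iff₀ h2 (by positivity)] at hk
  have h3 : ((a * (k + 2) ^ d : ℕ) : ℝ) ≤ ((2 ^ k : ℕ) : ℝ) := by
    push_cast at hk ⊢
    have h4 : (0 : ℝ) ≤ ((k : ℝ) + 2) ^ d := by positivity
    have h5 : (2 : ℝ) ^ (k + 2) = 4 * 2 ^ k := by ring
    rw [h5] at hk
    nlinarith
  exact_mod_cast h3

theorem poly_small (p : Polynomial ℕ) :
    ∀ c : ℕ, ∀ᶠ k : ℕ in Filter.atTop, c * p.eval (k + 2) ≤ 2 ^ k := by
  induction p using Polynomial.induction_on' with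
  | add p q hp hq =>
    intro c
    filter_upwards [hp (2 * c), hq (2 * c)] with k h1 h2
    rw [Polynomial.eval_add]
    nlinarith
  | monomial d a =>
    intro c
    filter_upwards [monomial_small d (c * a)] with k hk
    rw [Polynomial.eval_monomial, ← mul_assoc]
    exact hk

/-- The first-order definable classes `J = setsJ`, `K = setsK` satisfy `f_J ≤ 2 f_K` and there is an
isomorphism testing algorithm `α` for `K` such that no isomorphism testing algorithm `β` for `J`
satisfies `m_J (β, n) ≤ p (m_K (α, n))` for all large `n`, for any function `p` whatsoever; indeed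
`m_K (α, n) = 1` for all `n`, and `m_J (β, n) > n` for all `n ≥ 1` and all `β`.
Moreover, for polynomials `p` this remains true when `α` is charged at least the length of its
input. -/
theorem result :
    ∃ J K : FOClass, J = setsJ ∧ K = setsK ∧
      (∃ q : Polynomial ℕ, ∀ n, J.types n ≤ q.eval (K.types n)) ∧
      ∃ α : Machine, Tests α K ∧ (∀ n, cost α K n = 1) ∧
        (∀ β : Machine, Tests β J → ∀ n, 1 ≤ n → n < cost β J n) ∧
        (∀ p : ℕ → ℕ, ¬ ∃ β : Machine, Tests β J ∧
          ∀ᶠ n in Filter.atTop, cost β J n ≤ p (cost α K n)) ∧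
        ∀ p : Polynomial ℕ, ¬ ∃ β : Machine, Tests β J ∧
          ∀ᶠ n in Filter.atTop, cost β J n ≤ p.eval (chargedCost α K n) := by
  refine ⟨setsJ, setsK, rfl, rfl, ⟨2 * Polynomial.X, fun n => ?_⟩, trivialMachine, trivial_tests,
    trivial_cost, fun β hβ n hn => lt_cost hβ hn, ?_, ?_⟩
  · have h1 := types_setsJ n
    have h2 := one_le_types_setsK n
    simp only [Polynomial.eval_mul, Polynomial.eval_ofNat, Polynomial.eval_X]
    omega
  · rintro p ⟨β, hβ, h⟩
    obtain ⟨N, hN⟩ := Filter.eventually_atTop.1 h
    have h1 := hN (max N (p 1 + 1)) (le_max_left _ _)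
    have h2 := lt_cost hβ (n := max N (p 1 + 1))
      ((Nat.le_add_left 1 _).trans (le_max_right _ _))
    rw [trivial_cost] at h1
    have h3 : p 1 + 1 ≤ max N (p 1 + 1) := le_max_right _ _
    omega
  · rintro p ⟨β, hβ, h⟩
    obtain ⟨N, hN⟩ := Filter.eventually_atTop.1 h
    obtain ⟨K, hK⟩ := Filter.eventually_atTop.1 (poly_small p 1)
    have hk : N ≤ 2 ^ max N K := (le_max_left N K).trans Nat.lt_two_pow_self.le
    have h1 := hN (2 ^ max N K) hk
    have h2 := lt_cost hβ (n := 2 ^ max N K) Nat.one_le_two_pow
    have h3 := hK (max N K) (le_max_right _ _)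
    rw [trivial_chargedCost, Nat.size_pow] at h1
    rw [one_mul] at h3
    exact absurd (h2.trans_le (h1.trans h3)) (lt_irrefl _)

end Pool.Agent.Results.MP_28ce77_lc.NegativeAnswer
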